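import Pool.Agent.H44.CM.Uniq

/-!
# Level-set length in the Carleman–Milloux extremal problem: a counterexample

For `E = [287/321, 1)`, `r = 4/5`, `K = 8/25` the function `u_E` (which exists and is unique) has
`0 < |C_{u_E}(r, K)| < 2 π`, while some continuous subharmonic function `u` of the class `𝒰_E`
satisfies `u ≥ -K` on the whole circle `|z| = r`, so that `C_u(r, K)` is empty.

The function `u_E` is `-(2/π) arcsin ((|b M + 1| - |b M - 1|) / 2)`, `M = (1 + z) / (1 - z)`,
`b = 17/304`.  The function `u` is the sum of the same function with `b = 16/323`, rotated by `π`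
(it is `-1` on `(-1, -307/339]`), and of a truncated logarithmic pole at `9/10` (it is `-1` on
`[287/321, 307/339]`).  The uniqueness of `u_E` is a maximum principle with the barrier
`log 2 - log |1 - z|` at the point `1` (`Pool/Agent/H44/CM/Uniq.lean`).
-/

set_option autoImplicit false

namespace Pool.Agent.Results.MP_f2ff95_an.EmptyLevelSet

open MeasureTheory Set Filter Topology Metric InnerProductSpace
open Pool.Agent.H44.CM

/-- the set `E = [c, 1)` as a subset of the positive real axis in the plane -/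
def segment (c : ℝ) : Set ℂ := {z | ∃ t : ℝ, c ≤ t ∧ t < 1 ∧ z = (t : ℂ)}

/-- `h` is the function `u_E` for `E = [c, 1)`: it is bounded on the unit disc, harmonic in the unit
disc outside `E`, equal to `-1` on `E` and continuous there, and has the boundary value `0` at all
points of the unit circle other than `1`. -/
structure IsExtremal (c : ℝ) (h : ℂ → ℝ) : Prop where
  bounded : ∃ M : ℝ, ∀ z ∈ ball (0 : ℂ) 1, |h z| ≤ M
  harmonic : HarmonicOnNhd h (ball (0 : ℂ) 1 \ segment c)
  eq_neg_one : ∀ z ∈ segment c, h z = -1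
  continuousAt : ∀ z ∈ segment c, ContinuousAt h z
  boundary : ∀ z : ℂ, ‖z‖ = 1 → z ≠ 1 →
    Tendsto h (𝓝[ball (0 : ℂ) 1 \ segment c] z) (𝓝 0)

/-- `u` is a continuous real-valued member of the class `𝒰_E` for `E = [c, 1)`: it is continuous
and subharmonic in the unit disc (`u z` is at most the mean value of `u` over all sufficiently small
circles about `z`), `u ≤ 0` in the unit disc, and for every `t ∈ E` the minimum of `u` over the
circle `|z| = t` is at most `-1`. -/
structure IsCompetitor (c : ℝ) (u : ℂ → ℝ) : Prop where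
  continuousOn : ContinuousOn u (ball (0 : ℂ) 1)
  submean : ∀ z ∈ ball (0 : ℂ) 1, ∃ ε : ℝ, 0 < ε ∧ ∀ ρ : ℝ, 0 < ρ → ρ < ε →
    closedBall z ρ ⊆ ball 0 1 ∧ u z ≤ Real.circleAverage u z ρ
  nonpos : ∀ z ∈ ball (0 : ℂ) 1, u z ≤ 0
  le_neg_one : ∀ t : ℝ, c ≤ t → t < 1 → ∃ z : ℂ, ‖z‖ = t ∧ u z ≤ -1

/-- the length `|C_u(r, K)|` of the set of the `θ ∈ [0, 2π)` with `u(r e^{iθ}) < -K` -/
noncomputable def levelLength (u : ℂ → ℝ) (r K : ℝ) : ENNReal :=
  volume {θ : ℝ | θ ∈ Ico 0 (2 * Real.pi) ∧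
    u ((r : ℂ) * Complex.exp ((θ : ℂ) * Complex.I)) < -K}

lemma hc0 : ((1 : ℝ) - 17 / 304) / (1 + 17 / 304) = 287 / 321 := by norm_num

lemma hc1 : ((1 : ℝ) - 16 / 323) / (1 + 16 / 323) = 307 / 339 := by norm_num

lemma ne_one {z : ℂ} (hz : z ∈ ball (0 : ℂ) 1) : z ≠ 1 := by
  intro h
  rw [h, mem_ball_zero_iff] at hz
  simp at hz

lemma segment_sub {c : ℝ} (hc : 0 < c) {z : ℂ} (hz : z ∈ segment c) : z ∈ ball (0 : ℂ) 1 := by
  obtain ⟨t, h1, h2, rfl⟩ := hz
  rw [mem_ball_zero_iff, Complex.norm_real, Real.norm_eq_abs, abs_of_pos (hc.trans_le h1)]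
  exact h2

/-- the explicit function is `u_E` -/
lemma isExtremal : IsExtremal (287 / 321) (fun z => - sl (17 / 304) z) where
  bounded := ⟨1, fun z _ => by
    rw [abs_neg, abs_le]
    exact ⟨neg_one_le_sl _ _, sl_le_one _ _⟩⟩
  harmonic := by
    intro z hz
    have := sl_harmonicAt (b := 17 / 304) (by norm_num) (mem_ball_zero_iff.mp hz.1) (by
      rw [hc0]
      exact hz.2)
    exact this.neg
  eq_neg_one := by
    rintro z ⟨t, h1, h2, rfl⟩
    rw [sl_eq_one (by norm_num) (by rw [hc0]; exact h1) h2]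
  continuousAt := fun z hz => (sl_continuousAt _ (ne_one (segment_sub (by norm_num) hz))).neg
  boundary := by
    intro z hz hz1
    have h1 : ContinuousAt (fun w => - sl (17 / 304) w) z := (sl_continuousAt _ hz1).neg
    have h2 := h1.continuousWithinAt (s := ball (0 : ℂ) 1 \ segment (287 / 321))
    have h3 : Tendsto (fun w => - sl (17 / 304) w)
        (𝓝[ball (0 : ℂ) 1 \ segment (287 / 321)] z) (𝓝 (- sl (17 / 304) z)) := h2
    rwa [sl_eq_zero hz, neg_zero] at h3

/-- `u_E` is unique -/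
lemma le_of_isExtremal {c : ℝ} {h h' : ℂ → ℝ} (H : IsExtremal c h) (H' : IsExtremal c h') :
    ∀ z ∈ ball (0 : ℂ) 1, h z ≤ h' z := by
  intro z hz
  by_cases hzs : z ∈ segment c
  · rw [H.eq_neg_one z hzs, H'.eq_neg_one z hzs]
  · obtain ⟨M, hM⟩ := H.bounded
    obtain ⟨M', hM'⟩ := H'.bounded
    have key := nonpos_of_boundary (c := c) (w := fun z => h z - h' z) (M := M + M')
      (fun x hx => (H.harmonic x hx).sub (H'.harmonic x hx))
      (fun x hx => by
        have h1 := abs_le.1 (hM x hx)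
        have h2 := abs_le.1 (hM' x hx)
        linarith)
      (fun x hx => by
        have h1 : Tendsto h (𝓝[ball (0 : ℂ) 1 \ slit c] x) (𝓝 (-1)) := by
          have := (H.continuousAt x hx).continuousWithinAt (s := ball (0 : ℂ) 1 \ slit c)
          rw [ContinuousWithinAt, H.eq_neg_one x hx] at this
          exact this
        have h2 : Tendsto h' (𝓝[ball (0 : ℂ) 1 \ slit c] x) (𝓝 (-1)) := by
          have := (H'.continuousAt x hx).continuousWithinAt (s := ball (0 : ℂ) 1 \ slit c)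
          rw [ContinuousWithinAt, H'.eq_neg_one x hx] at this
          exact this
        have h3 := h1.sub h2
        rwa [sub_self] at h3)
      (fun x hx hx1 => by
        have h3 := (H.boundary x hx hx1).sub (H'.boundary x hx hx1)
        rwa [sub_self] at h3)
      z ⟨hz, hzs⟩
    have key' : h z - h' z ≤ 0 := key
    linarith

lemma eq_of_isExtremal {c : ℝ} {h h' : ℂ → ℝ} (H : IsExtremal c h) (H' : IsExtremal c h') :
    EqOn h' h (ball (0 : ℂ) 1) := fun z hz =>
  le_antisymm (le_of_isExtremal H' H z hz) (le_of_isExtremal H H' z hz)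

/-- the level set of `u_E` on the circle has positive length, but not full length -/
lemma level : 0 < levelLength (fun z => - sl (17 / 304) z) (4 / 5) (8 / 25) ∧
    levelLength (fun z => - sl (17 / 304) z) (4 / 5) (8 / 25) < ENNReal.ofReal (2 * Real.pi) := by
  have hcont : Continuous (fun θ : ℝ => - sl (17 / 304)
      ((((4 / 5 : ℝ)) : ℂ) * Complex.exp ((θ : ℂ) * Complex.I))) := by
    apply Continuous.neg
    rw [continuous_iff_continuousAt]
    intro θ
    have h1 : ContinuousAt (sl (17 / 304))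
        ((((4 / 5 : ℝ)) : ℂ) * Complex.exp ((θ : ℂ) * Complex.I)) := by
      apply sl_continuousAt
      apply ne_one
      rw [mem_ball_zero_iff, circ_norm]; norm_num
    have h2 : ContinuousAt (fun θ : ℝ =>
        (((4 / 5 : ℝ)) : ℂ) * Complex.exp ((θ : ℂ) * Complex.I)) θ := by fun_prop
    exact ContinuousAt.comp (f := fun θ : ℝ =>
        (((4 / 5 : ℝ)) : ℂ) * Complex.exp ((θ : ℂ) * Complex.I)) h1 h2
  set f : ℝ → ℝ := fun θ : ℝ => - sl (17 / 304)
      ((((4 / 5 : ℝ)) : ℂ) * Complex.exp ((θ : ℂ) * Complex.I)) with hf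
  have hf0 : f 0 < -(8 / 25) := by
    have h1 : f 0 = - sl (17 / 304) (((4 / 5 : ℝ)) : ℂ) := by
      simp [hf]
    rw [h1]
    have h2 : (((17 / 304 : ℝ)) : ℂ) * MM (((4 / 5 : ℝ)) : ℂ) = ((153 / 304 : ℝ) : ℂ) := by
      unfold MM; push_cast; norm_num
    have h3 : hh ((153 / 304 : ℝ) : ℂ) = 153 / 304 := by
      unfold hh
      have e1 : (((153 / 304 : ℝ)) : ℂ) + 1 = ((457 / 304 : ℝ) : ℂ) := by push_cast; norm_num
      have e2 : (((153 / 304 : ℝ)) : ℂ) - 1 = ((-(151 / 304) : ℝ) : ℂ) := by push_cast; norm_num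
      rw [e1, e2, Complex.norm_real, Complex.norm_real, Real.norm_eq_abs, Real.norm_eq_abs,
        abs_neg, abs_of_pos (by norm_num), abs_of_pos (by norm_num)]
      norm_num
    have h4 : Real.pi / 6 ≤ Real.arcsin (153 / 304) := by
      rw [Real.le_arcsin_iff_sin_le ⟨by linarith [Real.pi_pos], by linarith [Real.pi_pos]⟩
        ⟨by norm_num, by norm_num⟩, Real.sin_pi_div_six]
      norm_num
    have h5 : (1 / 3 : ℝ) ≤ sl (17 / 304) (((4 / 5 : ℝ)) : ℂ) := by
      unfold sl
      rw [h2, h3]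
      have hp := Real.pi_pos
      calc (1 / 3 : ℝ) = (2 / Real.pi) * (Real.pi / 6) := by field_simp; norm_num
        _ ≤ (2 / Real.pi) * Real.arcsin (153 / 304) := by gcongr
    linarith
  have hfpi : -(8 / 25) < f Real.pi := by
    have h1 : f Real.pi = - sl (17 / 304) (((-(4 / 5) : ℝ)) : ℂ) := by
      simp [hf, Complex.exp_pi_mul_I]
    rw [h1]
    have h2 : sl (17 / 304) (((-(4 / 5) : ℝ)) : ℂ) ≤ (2 / 3) * (1 / 100) := by
      apply sl_le (by norm_num) _ _ (by norm_num)
      · rw [Complex.norm_real, Real.norm_eq_abs, abs_neg, abs_of_pos (by norm_num)]; norm_num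
      · have e1 : MM (((-(4 / 5) : ℝ)) : ℂ) = ((1 / 9 : ℝ) : ℂ) := by
          unfold MM; push_cast; norm_num
        rw [e1, Complex.ofReal_re]; norm_num
    linarith
  have hp := Real.pi_pos
  constructor
  · show 0 < volume {θ : ℝ | θ ∈ Set.Ico 0 (2 * Real.pi) ∧ f θ < -(8 / 25)}
    have hopen : IsOpen {θ : ℝ | f θ < -(8 / 25)} := isOpen_lt hcont continuous_const
    obtain ⟨ε, hε, hb⟩ := Metric.isOpen_iff.mp hopen 0 hf0
    have hsub : Set.Ioo 0 (min ε Real.pi) ⊆
        {θ : ℝ | θ ∈ Set.Ico 0 (2 * Real.pi) ∧ f θ < -(8 / 25)} := by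
      rintro θ ⟨h1, h2⟩
      have h3 : θ < ε := h2.trans_le (min_le_left _ _)
      have h4 : θ < Real.pi := h2.trans_le (min_le_right _ _)
      refine ⟨⟨h1.le, by linarith⟩, ?_⟩
      have : θ ∈ Metric.ball (0 : ℝ) ε := by
        rw [mem_ball_zero_iff, Real.norm_eq_abs, abs_of_pos h1]; exact h3
      exact hb this
    refine lt_of_lt_of_le ?_ (measure_mono hsub)
    rw [Real.volume_Ioo, ENNReal.ofReal_pos]
    have := lt_min hε hp
    linarith
  · show volume {θ : ℝ | θ ∈ Set.Ico 0 (2 * Real.pi) ∧ f θ < -(8 / 25)}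
      < ENNReal.ofReal (2 * Real.pi)
    have hopen : IsOpen {θ : ℝ | -(8 / 25) < f θ} := isOpen_lt continuous_const hcont
    obtain ⟨ε, hε, hb⟩ := Metric.isOpen_iff.mp hopen Real.pi hfpi
    set η := min ε Real.pi with hη
    have hη0 : 0 < η := lt_min hε hp
    have hη1 : η ≤ Real.pi := min_le_right _ _
    have hsub : {θ : ℝ | θ ∈ Set.Ico 0 (2 * Real.pi) ∧ f θ < -(8 / 25)} ⊆
        Set.Ico 0 Real.pi ∪ Set.Ico (Real.pi + η / 2) (2 * Real.pi) := by
      rintro θ ⟨⟨h1, h2⟩, h3⟩
      by_cases h4 : θ < Real.pi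
      · left; exact ⟨h1, h4⟩
      · right
        push Not at h4
        refine ⟨?_, h2⟩
        by_contra h5
        push Not at h5
        have h6 : θ ∈ Metric.ball Real.pi ε := by
          rw [Metric.mem_ball, Real.dist_eq, abs_of_nonneg (by linarith)]
          have := min_le_left ε Real.pi
          linarith
        have h7 := hb h6
        simp only [Set.mem_ofPred_eq] at h7
        linarith
    calc volume {θ : ℝ | θ ∈ Set.Ico 0 (2 * Real.pi) ∧ f θ < -(8 / 25)}
        ≤ volume (Set.Ico 0 Real.pi ∪ Set.Ico (Real.pi + η / 2) (2 * Real.pi)) :=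
          measure_mono hsub
      _ ≤ volume (Set.Ico 0 Real.pi) + volume (Set.Ico (Real.pi + η / 2) (2 * Real.pi)) :=
          measure_union_le _ _
      _ = ENNReal.ofReal (Real.pi - 0) + ENNReal.ofReal (2 * Real.pi - (Real.pi + η / 2)) := by
          rw [Real.volume_Ico, Real.volume_Ico]
      _ = ENNReal.ofReal ((Real.pi - 0) + (2 * Real.pi - (Real.pi + η / 2))) := by
          rw [ENNReal.ofReal_add (by linarith) (by linarith)]
      _ < ENNReal.ofReal (2 * Real.pi) := by
          rw [ENNReal.ofReal_lt_ofReal_iff (by linarith)]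
          linarith

/-- the competitor -/
lemma competitor : ∃ u : ℂ → ℝ, IsCompetitor (287 / 321) u ∧
    ∀ z : ℂ, ‖z‖ = 4 / 5 → -(8 / 25) ≤ u z := by
  have hv2c : ContinuousOn (fun z : ℂ => sl (16 / 323) (-z)) (Metric.ball (0 : ℂ) 1) := by
    intro z hz
    apply ContinuousAt.continuousWithinAt
    have h1 : ContinuousAt (sl (16 / 323)) (-z) := by
      apply sl_continuousAt
      apply ne_one
      rw [mem_ball_zero_iff, norm_neg]; exact mem_ball_zero_iff.mp hz
    exact ContinuousAt.comp (f := fun z : ℂ => -z) h1 (by fun_prop)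
  have hpoc : ContinuousOn (po (9 / 10) 33) (Metric.ball (0 : ℂ) 1) := by
    intro z hz
    exact (po_continuousAt (by norm_num) (by norm_num) (by norm_num)
      (mem_ball_zero_iff.mp hz)).continuousWithinAt
  have hv2nn : ∀ z ∈ Metric.ball (0 : ℂ) 1, 0 ≤ sl (16 / 323) (-z) := by
    intro z hz
    apply sl_nonneg (by norm_num)
    rw [norm_neg]; exact mem_ball_zero_iff.mp hz
  have hponn : ∀ z ∈ Metric.ball (0 : ℂ) 1, 0 ≤ po (9 / 10) 33 z := by
    intro z hz
    exact po_nonneg (by norm_num) (by norm_num) (by norm_num) (mem_ball_zero_iff.mp hz)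
  set v : ℂ → ℝ := fun z => sl (16 / 323) (-z) + po (9 / 10) 33 z with hv
  have hvc : ContinuousOn v (Metric.ball (0 : ℂ) 1) := hv2c.add hpoc
  have hvnn : ∀ z ∈ Metric.ball (0 : ℂ) 1, 0 ≤ v z := fun z hz =>
    add_nonneg (hv2nn z hz) (hponn z hz)
  have hmean : ∀ z ∈ Metric.ball (0 : ℂ) 1, ∃ ε : ℝ, 0 < ε ∧ ∀ ρ : ℝ, 0 < ρ → ρ < ε →
      Metric.closedBall z ρ ⊆ Metric.ball 0 1 ∧ Real.circleAverage v z ρ ≤ v z := by
    intro z hz
    have hz' : ‖z‖ < 1 := mem_ball_zero_iff.mp hz
    obtain ⟨ε₁, hε₁, hb₁⟩ := super_mean (v := fun z : ℂ => sl (16 / 323) (-z)) hv2c hz (by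
      by_cases h : ∃ t : ℝ, ((1 : ℝ) - 16 / 323) / (1 + 16 / 323) ≤ t ∧ t < 1 ∧ -z = (t : ℂ)
      · left
        obtain ⟨t, h1, h2, h3⟩ := h
        intro w _
        show sl (16 / 323) (-w) ≤ sl (16 / 323) (-z)
        rw [h3, sl_eq_one (by norm_num) h1 h2]
        exact sl_le_one _ _
      · right
        have h1 := sl_harmonicAt (b := 16 / 323) (z := -z) (by norm_num)
          (by rw [norm_neg]; exact hz') h
        exact harmonicAt_comp_neg h1)
    obtain ⟨ε₂, hε₂, hb₂⟩ := super_mean (v := po (9 / 10) 33) hpoc hz (by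
      by_cases h : bl (9 / 10) z ≤ 1 / 33
      · left
        intro w _
        rw [po_eq_one (by norm_num) h]
        exact po_le_one (by norm_num) w
      · right
        push Not at h
        exact po_harmonicAt (by norm_num) (by norm_num) (by norm_num) hz' h)
    refine ⟨min ε₁ ε₂, lt_min hε₁ hε₂, fun ρ h1 h2 => ?_⟩
    obtain ⟨hs, ha⟩ := hb₁ ρ h1 (h2.trans_le (min_le_left _ _))
    obtain ⟨_, ha'⟩ := hb₂ ρ h1 (h2.trans_le (min_le_right _ _))
    refine ⟨hs, ?_⟩
    have hi1 : CircleIntegrable (fun z : ℂ => sl (16 / 323) (-z)) z ρ :=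
      ContinuousOn.circleIntegrable h1.le
        (hv2c.mono (Metric.sphere_subset_closedBall.trans hs))
    have hi2 : CircleIntegrable (po (9 / 10) 33) z ρ :=
      ContinuousOn.circleIntegrable h1.le
        (hpoc.mono (Metric.sphere_subset_closedBall.trans hs))
    have := Real.circleAverage_fun_add hi1 hi2
    rw [hv, this]
    exact add_le_add ha ha'
  refine ⟨fun z => -(v z), ⟨hvc.neg, ?_, ?_, ?_⟩, ?_⟩
  · intro z hz
    obtain ⟨ε, hε, hb⟩ := hmean z hz
    refine ⟨ε, hε, fun ρ h1 h2 => ?_⟩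
    obtain ⟨hs, ha⟩ := hb ρ h1 h2
    refine ⟨hs, ?_⟩
    have h3 : Real.circleAverage (fun z => -(v z)) z ρ = -Real.circleAverage v z ρ := by
      simp only [Real.circleAverage_def, intervalIntegral.integral_neg, smul_eq_mul, mul_neg]
    rw [h3]
    exact neg_le_neg ha
  · intro z hz
    have := hvnn z hz
    linarith
  · intro t ht0' ht1
    have ht0 : 0 < t := lt_of_lt_of_le (by norm_num) ht0'
    by_cases h : 307 / 339 ≤ t
    · refine ⟨-(t : ℂ), by rw [norm_neg, Complex.norm_real, Real.norm_eq_abs, abs_of_pos ht0], ?_⟩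
      have h1 : sl (16 / 323) (-(-(t : ℂ))) = 1 := by
        rw [neg_neg]
        exact sl_eq_one (by norm_num) (by rw [hc1]; exact h) ht1
      have h2 : 0 ≤ po (9 / 10) 33 (-(t : ℂ)) := by
        apply hponn
        rw [mem_ball_zero_iff, norm_neg, Complex.norm_real, Real.norm_eq_abs,
          abs_of_pos ht0]
        exact ht1
      simp only [hv]
      rw [h1]
      linarith
    · push Not at h
      refine ⟨(t : ℂ), by rw [Complex.norm_real, Real.norm_eq_abs, abs_of_pos ht0], ?_⟩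
      have h1 : bl (9 / 10) (t : ℂ) ≤ 1 / 33 := by
        unfold bl
        have e1 : ((t : ℂ) - ((9 / 10 : ℝ) : ℂ)) / (1 - ((9 / 10 : ℝ) : ℂ) * t)
            = (((t - 9 / 10) / (1 - 9 / 10 * t) : ℝ) : ℂ) := by push_cast; ring
        have e2 : 0 < 1 - 9 / 10 * t := by linarith
        rw [e1, Complex.norm_real, Real.norm_eq_abs, abs_div, abs_of_pos e2,
          div_le_iff₀ e2, abs_le]
        constructor <;> linarith
      have h2 : po (9 / 10) 33 (t : ℂ) = 1 := po_eq_one (by norm_num) h1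
      have h3 : 0 ≤ sl (16 / 323) (-(t : ℂ)) := by
        apply hv2nn
        rw [mem_ball_zero_iff, Complex.norm_real, Real.norm_eq_abs,
          abs_of_pos ht0]
        exact ht1
      simp only [hv]
      rw [h2]
      linarith
  · intro z hz
    have := key_est hz
    simp only [hv]
    linarith

/-- Let `E = [287/321, 1)`, `r = 4/5`, `K = 8/25`.  There is exactly one function `h = u_E`
(`IsExtremal`), its level set satisfies `0 < |C_h(r, K)| < 2 π`, and there is a continuous
subharmonic function `u` in the class `𝒰_E` (`IsCompetitor`) with `u ≥ -K` on the circle `|z| = r`,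
so that `C_u(r, K)` is empty: the answer to Q1 is negative. -/
theorem result :
    ∃ h : ℂ → ℝ, (IsExtremal (287 / 321) h ∧
      ∀ h' : ℂ → ℝ, IsExtremal (287 / 321) h' → EqOn h' h (ball (0 : ℂ) 1)) ∧
    (0 < levelLength h (4 / 5) (8 / 25) ∧
      levelLength h (4 / 5) (8 / 25) < ENNReal.ofReal (2 * Real.pi)) ∧
    ∃ u : ℂ → ℝ, IsCompetitor (287 / 321) u ∧ levelLength u (4 / 5) (8 / 25) = 0 ∧
      ∀ z : ℂ, ‖z‖ = 4 / 5 → -(8 / 25) ≤ u z := by
  refine ⟨fun z => - sl (17 / 304) z,
    ⟨isExtremal, fun h' H' => eq_of_isExtremal isExtremal H'⟩, level, ?_⟩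
  obtain ⟨u, hu, hu2⟩ := competitor
  refine ⟨u, hu, ?_, hu2⟩
  have : {θ : ℝ | θ ∈ Ico 0 (2 * Real.pi) ∧
      u (((4 / 5 : ℝ) : ℂ) * Complex.exp ((θ : ℂ) * Complex.I)) < -(8 / 25)} = ∅ := by
    ext θ
    simp only [Set.mem_ofPred_eq, Set.mem_empty_iff_false, iff_false, not_and, not_lt]
    exact fun _ => hu2 _ (circ_norm θ)
  unfold levelLength
  rw [this, measure_empty]

end Pool.Agent.Results.MP_f2ff95_an.EmptyLevelSet
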